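import Mathlib
import Pool.Agent.helper82.SB.Shared

set_option autoImplicit false

/-!
# SB-I: port of either torsion sign, from the modules A, B, D, E1, E2, E3, H
-/

namespace Pool.Agent.helper70.SB

open Matrix Filter Topology
open Pool.Agent.helper82.SB

/-- SB-A -/
def StA : Prop := ∀ K : PolyKnot, ∃ ε : ℝ, 0 < ε ∧ ∀ P' : ℤ → E3, (∀ i, P' (i + K.n) = P' i) →
    (∀ i, ‖P' i - K.P i‖ < ε) → ∃ L : PolyKnot, L.n = K.n ∧ L.P = P' ∧ Equivalent K L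

/-- SB-B -/
def StB : Prop := ∀ K : PolyKnot, ∃ δ : ℝ, 0 < δ ∧ ∀ α β : ℝ, 0 < α → α < δ → 0 < β → β < δ →
    ∃ L : PolyKnot, L.n = K.n + 1 ∧
      L.P = cutP K.n K.P (K.P (K.n - 1) - α • edge K.P (K.n - 2))
        (K.P (K.n - 1) + β • edge K.P (K.n - 1)) ∧ Equivalent K L

/-- SB-D -/
def StD : Prop := ∀ (K : PolyKnot) (_ : ¬ Trivial K) (M : ℕ)
    (_ : ∀ v, maxima K.n K.P v ≤ M),
    ∃ L : PolyKnot, Equivalent K L ∧ 4 ≤ L.n ∧ Gen L.n L.P ∧ ∀ v, maxima L.n L.P v ≤ M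

/-- SB-E1 -/
def StE1 : Prop := ∀ (n : ℕ) (P : ℤ → E3) (_ : ∀ i, P (i + n) = P i) (_ : Gen n P),
    {ρ : ℝ | ∃ j k : ℤ, 0 ≤ j ∧ j < k ∧ k < n - 2 ∧
      det3 (edge P (n - 2) + ρ • edge P (n - 1)) (edge P j) (edge P k) = 0}.Finite

/-- SB-E2 -/
def StE2 : Prop := ∀ (n : ℕ) (_ : 4 ≤ n) (P : ℤ → E3) (_ : ∀ i, P (i + n) = P i)
    (_ : Gen n P) (M : ℕ) (_ : ∀ v, maxima n P v ≤ M) (α ρ : ℝ) (_ : 0 < α) (_ : α < 1)
    (_ : 0 < ρ) (_ : α * ρ < 1)
    (_ : ∀ j k : ℤ, 0 ≤ j → j < k → k < n - 2 →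
      det3 (edge P (n - 2) + ρ • edge P (n - 1)) (edge P j) (edge P k) ≠ 0),
    ∀ᶠ l : ℝ in 𝓝[>] 0, ∀ v, maxima (n + 1)
      (cutP n P (P (n - 1) - α • edge P (n - 2) + l • edge P (n - 3))
        (P (n - 1) + (α * ρ) • edge P (n - 1))) v ≤ M

/-- SB-E3 -/
def StE3 : Prop := ∀ (n : ℕ) (_ : 4 ≤ n) (P : ℤ → E3) (_ : ∀ i, P (i + n) = P i)
    (_ : Gen n P) (M : ℕ) (_ : ∀ v, maxima n P v ≤ M) (α ρ : ℝ) (_ : 0 < α) (_ : α < 1)
    (_ : 0 < ρ) (_ : α * ρ < 1)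
    (_ : ∀ j k : ℤ, 0 ≤ j → j < k → k < n - 2 →
      det3 (edge P (n - 2) + ρ • edge P (n - 1)) (edge P j) (edge P k) ≠ 0)
    (_ : ∀ᶠ v in 𝓝 (crossProduct (edge P (n - 2)) (edge P (n - 1))),
      maxima n P v + 1 ≤ M),
    ∀ᶠ l : ℝ in 𝓝 0, ∀ v, maxima (n + 1)
      (cutP n P (P (n - 1) - α • edge P (n - 2) + l • edge P (n - 3))
        (P (n - 1) + (α * ρ) • edge P (n - 1))) v ≤ M

/-- SB-H -/
def StH : Prop := ∀ (K : PolyKnot) (_ : 4 ≤ K.n) (_ : Gen K.n K.P) (s : ℝ)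
    (_ : ∀ i : ℤ, 0 < s * det3 (edge K.P (i - 1)) (edge K.P i) (edge K.P (i + 1)))
    (M : ℕ) (_ : ∀ v, maxima K.n K.P v ≤ M),
    ∃ L : PolyKnot, Equivalent K L ∧ 4 ≤ L.n ∧ Gen L.n L.P ∧ (∀ v, maxima L.n L.P v ≤ M) ∧
      0 < s * det3 (edge L.P (L.n - 3)) (edge L.P (L.n - 2)) (edge L.P (L.n - 1)) ∧
      ∀ᶠ v in 𝓝 (crossProduct (edge L.P (L.n - 2)) (edge L.P (L.n - 1))),
        maxima L.n L.P v + 1 ≤ M

theorem det3_swap12 (a b c : E3) : det3 b a c = - det3 a b c := by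
  unfold det3; ring

/-- `cutP` is periodic -/
theorem cutP_per (n : ℕ) (P : ℤ → E3) (x y : E3) (i : ℤ) :
    cutP n P x y (i + ((n + 1 : ℕ) : ℤ)) = cutP n P x y i := by
  unfold cutP
  have : (i + ((n + 1 : ℕ) : ℤ)) % ((n : ℤ) + 1) = i % ((n : ℤ) + 1) := by
    push_cast
    exact Int.add_emod_right _ _
  rw [this]

theorem cutP_of_lt (n : ℕ) (P : ℤ → E3) (x y : E3) (i : ℤ) (h0 : 0 ≤ i) (h1 : i < n - 1) :
    cutP n P x y i = P i := by
  unfold cutP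
  have : i % ((n : ℤ) + 1) = i := Int.emod_eq_of_lt h0 (by omega)
  rw [this, if_neg (by omega), if_neg (by omega)]

theorem cutP_pred (n : ℕ) (hn : 1 ≤ n) (P : ℤ → E3) (x y : E3) :
    cutP n P x y (n - 1) = x := by
  unfold cutP
  have : ((n : ℤ) - 1) % ((n : ℤ) + 1) = n - 1 := Int.emod_eq_of_lt (by omega) (by omega)
  rw [this, if_pos rfl]

theorem cutP_self (n : ℕ) (P : ℤ → E3) (x y : E3) :
    cutP n P x y n = y := by
  unfold cutP
  have : (n : ℤ) % ((n : ℤ) + 1) = n := Int.emod_eq_of_lt (by omega) (by omega)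
  rw [this, if_neg (by omega), if_pos rfl]

theorem cutP_sub (n : ℕ) (P : ℤ → E3) (x x' y : E3) (i : ℤ) :
    ‖cutP n P x' y i - cutP n P x y i‖ ≤ ‖x' - x‖ := by
  unfold cutP
  split_ifs
  · exact le_rfl
  · simp
  · simp

/-- Rotating a polygon in general position. -/
theorem gen_rotate {n : ℕ} {P Q : ℤ → E3} (k : ℤ) (hQ : ∀ i, Q i = P (i + k)) (h : Gen n P) :
    Gen n Q := by
  intro i j l h1 h2 h3
  have e : ∀ i, edge Q i = edge P (i + k) := by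
    intro i
    unfold edge
    rw [hQ, hQ, show i + 1 + k = i + k + 1 by ring]
  rw [e, e, e]
  exact h _ _ _ (by omega) (by omega) (by omega)

/-- A ball around the last vertex which does not meet the other edges. -/
theorem exists_radius (K : PolyKnot) (hn : 4 ≤ K.n) : ∃ R : ℝ, 0 < R ∧
    ∀ j : ℤ, 0 ≤ j → j < K.n - 2 →
      Disjoint (segment ℝ (K.P j) (K.P (j + 1))) (Metric.ball (K.P (K.n - 1)) (2 * R)) := by
  set r := K.P (K.n - 1) with hr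
  set T : Set E3 := ⋃ j ∈ Finset.range (K.n - 2), segment ℝ (K.P j) (K.P (j + 1)) with hT
  have hTc : IsClosed T := by
    apply Set.Finite.isClosed_biUnion (Finset.finite_toSet _)
    intro j _
    have : IsCompact (segment ℝ (K.P j) (K.P (j + 1))) := by
      rw [segment_eq_image_lineMap]
      exact isCompact_Icc.image (by fun_prop)
    exact this.isClosed
  have hrT : r ∉ T := by
    intro h
    simp only [hT, Set.mem_iUnion, Finset.mem_range] at h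
    obtain ⟨j, hj, hmem⟩ := h
    by_cases hj3 : (j : ℤ) = K.n - 3
    · have := K.disj j (K.n - 1) (by omega) (by omega)
      rw [Set.disjoint_left] at this
      exact this hmem (left_mem_segment ℝ _ _)
    · have := K.disj j (K.n - 2) (by omega) (by omega)
      rw [Set.disjoint_left] at this
      refine this hmem ?_
      have e : K.P (K.n - 2 + 1) = r := by rw [hr]; congr 1; ring
      rw [e]
      exact right_mem_segment ℝ _ _
  obtain ⟨ε, hε, hball⟩ := Metric.isOpen_iff.1 hTc.isOpen_compl r hrT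
  refine ⟨ε / 2, by positivity, ?_⟩
  intro j h0 h1
  rw [Set.disjoint_left]
  intro z hz hz'
  have h2 : z ∈ Tᶜ := hball (by simpa [mul_div_cancel₀] using hz')
  apply h2
  simp only [hT, Set.mem_iUnion, Finset.mem_range]
  refine ⟨j.toNat, by omega, ?_⟩
  have : ((j.toNat : ℕ) : ℤ) = j := by omega
  rw [this]
  exact hz

/-- The construction, once a good last corner is available. -/
theorem port_of_corner (hA : StA) (hB : StB) (hE1 : StE1) (K : PolyKnot) (hn : 4 ≤ K.n)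
    (hgen : Gen K.n K.P) (M : ℕ) (s σ : ℝ) (hσ : |σ| ≤ 1)
    (hpos : 0 < s * σ * det3 (edge K.P (K.n - 3)) (edge K.P (K.n - 2)) (edge K.P (K.n - 1)))
    (hins : ∀ (α ρ : ℝ) (_ : 0 < α) (_ : α < 1)
      (_ : 0 < ρ) (_ : α * ρ < 1)
      (_ : ∀ j k : ℤ, 0 ≤ j → j < k → k < K.n - 2 →
        det3 (edge K.P (K.n - 2) + ρ • edge K.P (K.n - 1)) (edge K.P j) (edge K.P k) ≠ 0),
      ∀ᶠ l : ℝ in 𝓝[>] 0, ∀ v, maxima (K.n + 1)
        (cutP K.n K.P (K.P (K.n - 1) - α • edge K.P (K.n - 2) + (σ * l) • edge K.P (K.n - 3))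
          (K.P (K.n - 1) + (α * ρ) • edge K.P (K.n - 1))) v ≤ M)
    (κ : ℝ) (hκ : 0 < κ) :
    ∃ L : PolyKnot, Equivalent K L ∧ (∀ v, maxima L.n L.P v ≤ M) ∧ Port L κ ∧ 0 < s * tor L := by
  obtain ⟨n, hnn⟩ : ∃ n : ℕ, n = K.n := ⟨K.n, rfl⟩
  obtain ⟨R, hR, hdisj⟩ := exists_radius K hn
  -- a ratio which is not bad
  obtain ⟨ρ, ⟨hρ0, hρ1⟩, hρbad⟩ : ∃ ρ ∈ Set.Ioo (0:ℝ) 1, ρ ∉ {ρ : ℝ | ∃ j k : ℤ, 0 ≤ j ∧ j < k ∧
      k < K.n - 2 ∧
      det3 (edge K.P (K.n - 2) + ρ • edge K.P (K.n - 1)) (edge K.P j) (edge K.P k) = 0} :=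
    (Set.Ioo_infinite (by norm_num : (0:ℝ) < 1)).exists_notMem_finite (hE1 K.n K.P K.per hgen)
  have hbad : ∀ j k : ℤ, 0 ≤ j → j < k → k < K.n - 2 →
        det3 (edge K.P (K.n - 2) + ρ • edge K.P (K.n - 1)) (edge K.P j) (edge K.P k) ≠ 0 := by
    intro j k h1 h2 h3 h4
    exact hρbad ⟨j, k, h1, h2, h3, h4⟩
  set r := K.P (K.n - 1) with hr
  set am := edge K.P (K.n - 3) with ham
  set a := edge K.P (K.n - 2) with ha
  set b := edge K.P (K.n - 1) with hb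
  -- choice of `α`
  obtain ⟨δ, hδ, hcut⟩ := hB K
  obtain ⟨α, hα0, hα1, hαδ, hα2, hα3⟩ : ∃ α : ℝ, 0 < α ∧ α < 1 ∧ α < δ ∧
      α * (‖a‖ + ρ * ‖b‖) ≤ κ * R / 2 ∧ α * ‖a‖ ≤ R / 4 := by
    have t1 : Tendsto (fun α : ℝ => α * (‖a‖ + ρ * ‖b‖)) (𝓝[>] 0) (𝓝 0) := by
      have : Tendsto (fun α : ℝ => α * (‖a‖ + ρ * ‖b‖)) (𝓝 0) (𝓝 (0 * (‖a‖ + ρ * ‖b‖))) :=
        tendsto_id.mul_const _
      rw [zero_mul] at this
      exact this.mono_left nhdsWithin_le_nhds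
    have t2 : Tendsto (fun α : ℝ => α * ‖a‖) (𝓝[>] 0) (𝓝 0) := by
      have : Tendsto (fun α : ℝ => α * ‖a‖) (𝓝 0) (𝓝 (0 * ‖a‖)) := tendsto_id.mul_const _
      rw [zero_mul] at this
      exact this.mono_left nhdsWithin_le_nhds
    have e1 : ∀ᶠ α : ℝ in 𝓝[>] 0, α * (‖a‖ + ρ * ‖b‖) ≤ κ * R / 2 :=
      t1.eventually (eventually_le_nhds (by positivity))
    have e2 : ∀ᶠ α : ℝ in 𝓝[>] 0, α * ‖a‖ ≤ R / 4 :=
      t2.eventually (eventually_le_nhds (by positivity))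
    have e3 : ∀ᶠ α : ℝ in 𝓝[>] 0, α < min 1 δ :=
      (eventually_lt_nhds (by positivity)).filter_mono nhdsWithin_le_nhds
    have e4 : ∀ᶠ α : ℝ in 𝓝[>] 0, 0 < α := self_mem_nhdsWithin
    obtain ⟨α, h1, h2, h3, h4⟩ := (e1.and (e2.and (e3.and e4))).exists
    exact ⟨α, h4, lt_of_lt_of_le h3 (min_le_left _ _), lt_of_lt_of_le h3 (min_le_right _ _), h1, h2⟩
  have hαρ0 : 0 < α * ρ := by positivity
  have hαρ1 : α * ρ < 1 := by nlinarith
  obtain ⟨Lα, hLn, hLP, hLeq⟩ := hcut α (α * ρ) hα0 hαδ hαρ0 (by nlinarith)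
  obtain ⟨ε, hε, hpert⟩ := hA Lα
  -- choice of `l`
  obtain ⟨l, hl0, hl1, hl2, hl3, hl4⟩ : ∃ l : ℝ, 0 < l ∧ l * ‖am‖ < ε ∧ l * ‖am‖ ≤ κ * R / 2 ∧
      l * ‖am‖ ≤ R / 4 ∧ ∀ v, maxima (K.n + 1)
        (cutP K.n K.P (r - α • a + (σ * l) • am) (r + (α * ρ) • b)) v ≤ M := by
    have t1 : Tendsto (fun l : ℝ => l * ‖am‖) (𝓝[>] 0) (𝓝 0) := by
      have : Tendsto (fun l : ℝ => l * ‖am‖) (𝓝 0) (𝓝 (0 * ‖am‖)) := tendsto_id.mul_const _
      rw [zero_mul] at this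
      exact this.mono_left nhdsWithin_le_nhds
    have e1 : ∀ᶠ l : ℝ in 𝓝[>] 0, l * ‖am‖ < ε := t1.eventually (eventually_lt_nhds hε)
    have e2 : ∀ᶠ l : ℝ in 𝓝[>] 0, l * ‖am‖ ≤ κ * R / 2 :=
      t1.eventually (eventually_le_nhds (by positivity))
    have e3 : ∀ᶠ l : ℝ in 𝓝[>] 0, l * ‖am‖ ≤ R / 4 :=
      t1.eventually (eventually_le_nhds (by positivity))
    have e4 : ∀ᶠ l : ℝ in 𝓝[>] 0, 0 < l := self_mem_nhdsWithin
    have e5 := hins α ρ hα0 hα1 hρ0 hαρ1 hbad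
    obtain ⟨l, h1, h2, h3, h4, h5⟩ := (e1.and (e2.and (e3.and (e4.and e5)))).exists
    exact ⟨l, h4, h1, h2, h3, h5⟩
  set x := r - α • a + (σ * l) • am with hx
  set y := r + (α * ρ) • b with hy
  have hnorm : ‖(σ * l) • am‖ ≤ l * ‖am‖ := by
    rw [norm_smul, Real.norm_eq_abs, abs_mul, abs_of_pos hl0]
    have : |σ| * l ≤ 1 * l := by gcongr
    calc |σ| * l * ‖am‖ ≤ 1 * l * ‖am‖ := by gcongr
      _ = l * ‖am‖ := by ring
  obtain ⟨L2, h2n, h2P, h2eq⟩ := hpert (cutP K.n K.P x y)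
    (by intro i; rw [hLn]; exact cutP_per _ _ _ _ _)
    (by
      intro i
      rw [hLP]
      refine lt_of_le_of_lt (cutP_sub _ _ _ _ _ _) ?_
      have : x - (r - α • a) = (σ * l) • am := by rw [hx]; abel
      rw [this]
      exact lt_of_le_of_lt hnorm hl1)
  have h2n' : L2.n = K.n + 1 := by rw [h2n, hLn]
  have h2max : ∀ v, maxima L2.n L2.P v ≤ M := by
    intro v
    rw [h2n', h2P]
    exact hl4 v
  obtain ⟨L, hLn', hLP', hLe, hLm⟩ := exists_rotate L2 K.n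
  -- vertices of `L`
  have per2 : ∀ i, L2.P (i + ((K.n + 1 : ℕ) : ℤ)) = L2.P i := by
    intro i
    have := L2.per i
    rw [h2n'] at this
    exact this
  have v_neg1 : L.P (-1) = x := by
    rw [hLP', h2P, show (-1 : ℤ) + K.n = K.n - 1 by ring]
    exact cutP_pred _ (by omega) _ _ _
  have v_zero : L.P 0 = y := by
    rw [hLP', h2P, zero_add]
    exact cutP_self _ _ _ _
  have v_pos : ∀ i : ℤ, 1 ≤ i → i ≤ K.n - 1 → L.P i = K.P (i - 1) := by
    intro i h1 h2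
    rw [hLP', show i + (K.n : ℤ) = (i - 1) + ((K.n + 1 : ℕ) : ℤ) by push_cast; ring, per2, h2P]
    exact cutP_of_lt _ _ _ _ _ (by omega) (by omega)
  have v_neg2 : L.P (-2) = K.P (K.n - 2) := by
    rw [hLP', h2P, show (-2 : ℤ) + K.n = K.n - 2 by ring]
    exact cutP_of_lt _ _ _ _ _ (by omega) (by omega)
  have hra : r = K.P (K.n - 2) + a := by
    rw [ha, edge, hr, show (K.n : ℤ) - 2 + 1 = K.n - 1 by ring]; abel
  have h0b : K.P 0 = r + b := by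
    have e := K.per 0
    rw [zero_add] at e
    rw [hb, edge, hr, show (K.n : ℤ) - 1 + 1 = K.n by ring, e]; abel
  have ed_neg2 : edge L.P (-2) = (1 - α) • a + (σ * l) • am := by
    rw [edge, show (-2 : ℤ) + 1 = -1 by norm_num, v_neg1, v_neg2, hx, hra]
    module
  have ed_neg1 : edge L.P (-1) = α • a + (α * ρ) • b - (σ * l) • am := by
    rw [edge, show (-1 : ℤ) + 1 = 0 by norm_num, v_neg1, v_zero, hx, hy]
    module
  have ed_zero : edge L.P 0 = (1 - α * ρ) • b := by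
    rw [edge, zero_add, v_zero, v_pos 1 le_rfl (by omega), sub_self, h0b, hy]
    module
  have htor : tor L = (1 - α * ρ) * (σ * l) * det3 am a b := by
    unfold tor
    rw [ed_neg2, ed_neg1, ed_zero]
    simp only [det3, Pi.add_apply, Pi.sub_apply, Pi.smul_apply, smul_eq_mul]
    ring
  refine ⟨L, (hLeq.trans h2eq).trans hLe, ?_, ⟨by omega, R, hR, ?_, ?_⟩, ?_⟩
  · intro v
    rw [hLm]
    exact h2max v
  · rw [ed_neg1]
    calc ‖α • a + (α * ρ) • b - (σ * l) • am‖ ≤ ‖α • a + (α * ρ) • b‖ + ‖(σ * l) • am‖ :=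
          norm_sub_le _ _
      _ ≤ (‖α • a‖ + ‖(α * ρ) • b‖) + l * ‖am‖ := add_le_add (norm_add_le _ _) hnorm
      _ = α * (‖a‖ + ρ * ‖b‖) + l * ‖am‖ := by
          rw [norm_smul, norm_smul, Real.norm_of_nonneg hα0.le, Real.norm_of_nonneg hαρ0.le]; ring
      _ ≤ κ * R / 2 + κ * R / 2 := add_le_add hα2 hl2
      _ = κ * R := by ring
  · intro i h1 h2
    rw [hLn', h2n'] at h2
    push_cast at h2
    rw [v_pos i h1 (by omega), v_pos (i + 1) (by omega) (by omega), v_neg1,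
      show i + 1 - 1 = (i - 1) + 1 by ring]
    refine Disjoint.mono_right ?_ (hdisj (i - 1) (by omega) (by omega))
    intro z hz
    rw [Metric.mem_closedBall, dist_eq_norm] at hz
    rw [Metric.mem_ball, dist_eq_norm]
    have hxr : ‖x - r‖ ≤ R / 2 := by
      have : x - r = (σ * l) • am - α • a := by rw [hx]; abel
      rw [this]
      calc ‖(σ * l) • am - α • a‖ ≤ ‖(σ * l) • am‖ + ‖α • a‖ := norm_sub_le _ _
        _ ≤ l * ‖am‖ + α * ‖a‖ := by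
            rw [norm_smul α, Real.norm_of_nonneg hα0.le]
            exact add_le_add hnorm le_rfl
        _ ≤ R / 4 + R / 4 := add_le_add hl3 hα3
        _ = R / 2 := by ring
    calc ‖z - K.P (K.n - 1)‖ = ‖(z - x) + (x - r)‖ := by rw [sub_add_sub_cancel]
      _ ≤ ‖z - x‖ + ‖x - r‖ := norm_add_le _ _
      _ ≤ R + R / 2 := add_le_add hz hxr
      _ < 2 * R := by linarith
  · rw [htor]
    have e : s * ((1 - α * ρ) * (σ * l) * det3 am a b)
        = (1 - α * ρ) * l * (s * σ * det3 am a b) := by ring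
    rw [e]
    have : 0 < 1 - α * ρ := by linarith
    positivity

/-- SB-I from the other modules. -/
theorem exists_port_of (hA : StA) (hB : StB) (hD : StD) (hE1 : StE1) (hE2 : StE2) (hE3 : StE3)
    (hH : StH) (K : PolyKnot) (hK : ¬ Trivial K) (M : ℕ) (hM : ∀ v, maxima K.n K.P v ≤ M)
    (s : ℝ) (hs : s ≠ 0) (κ : ℝ) (hκ : 0 < κ) :
    ∃ L : PolyKnot, Equivalent K L ∧ (∀ v, maxima L.n L.P v ≤ M) ∧ Port L κ ∧ 0 < s * tor L := by
  obtain ⟨L0, h0eq, h0n, h0gen, h0max⟩ := hD K hK M hM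
  by_cases hex : ∃ i : ℤ, 0 < s * det3 (edge L0.P (i - 1)) (edge L0.P i) (edge L0.P (i + 1))
  · obtain ⟨i, hi⟩ := hex
    obtain ⟨L1, h1n, h1P, h1eq, h1max⟩ := exists_rotate L0 (i + 2 - L0.n)
    have e : ∀ j, edge L1.P j = edge L0.P (j + (i + 2 - L0.n)) := by
      intro j
      unfold edge
      rw [h1P, h1P, show j + 1 + (i + 2 - (L0.n : ℤ)) = j + (i + 2 - L0.n) + 1 by ring]
    have hgen1 : Gen L1.n L1.P := by
      rw [h1n]; exact gen_rotate _ h1P h0gen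
    have hM1 : ∀ v, maxima L1.n L1.P v ≤ M := by
      intro v; rw [h1max]; exact h0max v
    have hpos : 0 < s * 1 * det3 (edge L1.P (L1.n - 3)) (edge L1.P (L1.n - 2))
        (edge L1.P (L1.n - 1)) := by
      rw [e, e, e, h1n, mul_one,
        show (L0.n : ℤ) - 3 + (i + 2 - L0.n) = i - 1 by ring,
        show (L0.n : ℤ) - 2 + (i + 2 - L0.n) = i by ring,
        show (L0.n : ℤ) - 1 + (i + 2 - L0.n) = i + 1 by ring]
      exact hi
    obtain ⟨L, hL1, hL2⟩ := port_of_corner hA hB hE1 L1 (by omega) hgen1 M s 1 (by simp) hpos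
      (by
        intro α ρ a1 a2 a3 a4 a5
        have := hE2 L1.n (by omega) L1.P L1.per hgen1 M hM1 α ρ a1 a2 a3 a4 a5
        simpa only [one_mul] using this) κ hκ
    exact ⟨L, (h0eq.trans h1eq).trans hL1, hL2⟩
  · push Not at hex
    have hneg : ∀ i : ℤ, 0 < (-s) * det3 (edge L0.P (i - 1)) (edge L0.P i) (edge L0.P (i + 1)) := by
      intro i
      have h1 := hex i
      have h2 : det3 (edge L0.P (i - 1)) (edge L0.P i) (edge L0.P (i + 1)) ≠ 0 :=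
        h0gen _ _ _ (by omega) (by omega) (by omega)
      have h3 : s * det3 (edge L0.P (i - 1)) (edge L0.P i) (edge L0.P (i + 1)) ≠ 0 :=
        mul_ne_zero hs h2
      have h4 := lt_of_le_of_ne h1 h3
      linarith
    obtain ⟨L1, h1eq, h1n, h1gen, h1max, h1pos, h1slack⟩ := hH L0 h0n h0gen (-s) hneg M h0max
    obtain ⟨L, hL1, hL2⟩ := port_of_corner hA hB hE1 L1 h1n h1gen M s (-1) (by simp)
      (by rw [show s * -1 = -s by ring]; exact h1pos)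
      (by
        intro α ρ a1 a2 a3 a4 a5
        have h := hE3 L1.n h1n L1.P L1.per h1gen M h1max α ρ a1 a2 a3 a4 a5 h1slack
        have t : Tendsto (fun l : ℝ => (-1) * l) (𝓝[>] 0) (𝓝 0) := by
          have : Tendsto (fun l : ℝ => (-1) * l) (𝓝 0) (𝓝 ((-1) * 0)) := tendsto_id.const_mul _
          rw [mul_zero] at this
          exact this.mono_left nhdsWithin_le_nhds
        exact t.eventually h) κ hκ
    exact ⟨L, (h0eq.trans h1eq).trans hL1, hL2⟩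

end Pool.Agent.helper70.SB
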